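import Mathlib
import Pool.Agent.H67R4.OG.Final

set_option autoImplicit false

/-!
# Products of powers of the generators: occurrences of a letter in their images
The proof uses free derivatives with values in the group algebra of a cyclic `p`-group over the
field with `p` elements, in the form of homomorphisms to a semidirect product.
-/

namespace Pool.Agent.Y860.OG

open FreeGroup Pool.Agent.H67R4.OG

/-- The semidirect product of the group of functions from `ZMod q` to `ZMod p` by `ZMod q`. -/
@[ext]
structure SD (p q : ℕ) where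
  e : ZMod q
  f : ZMod q → ZMod p

variable {p q : ℕ}

instance : Mul (SD p q) := ⟨fun x y => ⟨x.e + y.e, fun t => x.f t + y.f (t - x.e)⟩⟩
instance : One (SD p q) := ⟨⟨0, fun _ => 0⟩⟩
instance : Inv (SD p q) := ⟨fun x => ⟨-x.e, fun t => - x.f (t + x.e)⟩⟩

theorem mul_def (x y : SD p q) : x * y = ⟨x.e + y.e, fun t => x.f t + y.f (t - x.e)⟩ := rfl
theorem one_def : (1 : SD p q) = ⟨0, fun _ => 0⟩ := rfl
theorem inv_def (x : SD p q) : x⁻¹ = ⟨-x.e, fun t => - x.f (t + x.e)⟩ := rfl

instance : Group (SD p q) := Group.ofLeftAxioms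
  (by
    intro x y z
    simp only [mul_def]
    ext t
    · simp only; ring
    · simp only
      rw [add_assoc, sub_sub])
  (by
    intro x
    simp only [mul_def, one_def]
    ext t
    · simp only; ring
    · simp)
  (by
    intro x
    simp only [mul_def, one_def, inv_def]
    ext t
    · simp only; ring
    · simp)

theorem pow_def (x : SD p q) (n : ℕ) :
    x ^ n = ⟨n * x.e, fun t => ∑ j ∈ Finset.range n, x.f (t - j * x.e)⟩ := by
  induction n with
  | zero => simp [one_def]
  | succ n ih =>
    rw [pow_succ, ih, mul_def]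
    ext t
    · simp only; push_cast; ring
    · simp only
      rw [Finset.sum_range_succ]

/-- The invariant functions. -/
def J (p q : ℕ) : Multiplicative (ZMod p) →* SD p q where
  toFun z := ⟨0, fun _ => z.toAdd⟩
  map_one' := rfl
  map_mul' a b := by
    simp only [mul_def, toAdd_mul]
    ext t
    · simp
    · simp

def He (p q : ℕ) : SD p q →* Multiplicative (ZMod q) where
  toFun x := Multiplicative.ofAdd x.e
  map_one' := rfl
  map_mul' _ _ := rfl

def Hs (p q : ℕ) [NeZero q] : SD p q →* Multiplicative (ZMod p) where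
  toFun x := Multiplicative.ofAdd (∑ t, x.f t)
  map_one' := by simp [one_def]
  map_mul' x y := by
    rw [← ofAdd_add]
    congr 1
    simp only [mul_def, Finset.sum_add_distrib]
    congr 1
    exact Equiv.sum_comp (Equiv.subRight x.e) y.f

variable {k : ℕ}

/-- The exponent sum of the letter `a`, multiplicatively. -/
def Ez (a : Fin k) : FreeGroup (Fin k) →* Multiplicative ℤ :=
  lift fun x => Multiplicative.ofAdd (if x = a then 1 else 0)

/-- The exponent sum of the letter `a`. -/
def ez (a : Fin k) (g : FreeGroup (Fin k)) : ℤ := (Ez a g).toAdd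

theorem ez_mul (a : Fin k) (g h : FreeGroup (Fin k)) : ez a (g * h) = ez a g + ez a h := by
  simp [ez, toAdd_mul]

theorem ez_inv (a : Fin k) (g : FreeGroup (Fin k)) : ez a g⁻¹ = - ez a g := by
  simp [ez]

theorem ez_one (a : Fin k) : ez a (1 : FreeGroup (Fin k)) = 0 := by
  simp [ez]

theorem ez_of (a x : Fin k) : ez a (FreeGroup.of x) = if x = a then 1 else 0 := by
  simp [ez, Ez]

theorem ez_pow (a : Fin k) (g : FreeGroup (Fin k)) (n : ℕ) : ez a (g ^ n) = n * ez a g := by
  simp [ez]

/-- The homomorphism given by the derivative with respect to the letter `y`. -/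
def rho (p q : ℕ) (x y : Fin k) : FreeGroup (Fin k) →* SD p q :=
  lift fun z => ⟨if z = x then 1 else 0, fun t => if z = y ∧ t = 0 then 1 else 0⟩

theorem rho_e (x y : Fin k) (g : FreeGroup (Fin k)) : (rho p q x y g).e = (ez x g : ZMod q) := by
  have : (He p q).comp (rho p q x y) =
      (AddMonoidHom.toMultiplicative (Int.castAddHom (ZMod q))).comp (Ez x) := by
    apply FreeGroup.ext_hom
    intro z
    simp only [rho, Ez, He, MonoidHom.comp_apply, lift_apply_of]
    split_ifs <;> simp
  have h := congrArg (fun f => (f g).toAdd) this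
  exact h

theorem rho_s [NeZero q] (x y : Fin k) (g : FreeGroup (Fin k)) :
    ∑ t, (rho p q x y g).f t = (ez y g : ZMod p) := by
  have : (Hs p q).comp (rho p q x y) =
      (AddMonoidHom.toMultiplicative (Int.castAddHom (ZMod p))).comp (Ez y) := by
    apply FreeGroup.ext_hom
    intro z
    simp only [rho, Ez, Hs, MonoidHom.comp_apply, lift_apply_of]
    refine congrArg Multiplicative.ofAdd ?_
    by_cases h : z = y
    · simp [h]
    · simp [h]
  have h := congrArg (fun f => (f g).toAdd) this
  exact h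

theorem sum_periodic {M : Type} [AddCommMonoid M] (G : ℕ → M) (P : ℕ)
    (hG : ∀ j, G (P + j) = G j) (N : ℕ) :
    ∑ j ∈ Finset.range (P * N), G j = N • ∑ j ∈ Finset.range P, G j := by
  induction N with
  | zero => simp
  | succ N ih =>
    rw [Nat.mul_succ, Nat.add_comm, Finset.sum_range_add, succ_nsmul, add_comm]
    simp only [hG]
    rw [ih]

theorem sum_unit [NeZero q] (F : ZMod q → ZMod p) (c t : ZMod q) (hc : IsUnit c) (m : ℕ) :
    ∑ j ∈ Finset.range (q * m), F (t - j * c) = m * ∑ u, F u := by
  obtain ⟨d, hd⟩ := hc.exists_right_inv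
  rw [sum_periodic (fun j : ℕ => F (t - j * c)) q (fun j => by simp) m, nsmul_eq_mul]
  congr 1
  refine Finset.sum_nbij (fun j : ℕ => t - j * c) (fun _ _ => Finset.mem_univ _) ?_ ?_
    (fun _ _ => rfl)
  · intro j hj j' hj' h
    simp only [Finset.coe_range, Set.mem_Iio] at hj hj'
    have h1 : (j : ZMod q) = j' := by
      have h2 : (j : ZMod q) * c = j' * c := sub_right_injective h
      have h3 := congrArg (· * d) h2
      simp only [mul_assoc, hd, mul_one] at h3
      exact h3
    rw [ZMod.natCast_eq_natCast_iff'] at h1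
    rwa [Nat.mod_eq_of_lt hj, Nat.mod_eq_of_lt hj'] at h1
  · intro u _
    refine ⟨((t - u) * d).val, ?_, ?_⟩
    · simp only [Finset.coe_range, Set.mem_Iio]
      exact ZMod.val_lt _
    · simp only [ZMod.natCast_val, ZMod.cast_id', id_eq]
      rw [mul_assoc, mul_comm d c, hd]
      ring

theorem sum_nonunit (a : ℕ) (F : ZMod (p ^ (a + 1)) → ZMod p) (c : ℤ)
    (t : ZMod (p ^ (a + 1))) (hc : (p : ℤ) ∣ c) (m : ℕ) :
    ∑ j ∈ Finset.range (p ^ (a + 1) * m), F (t - j * (c : ZMod (p ^ (a + 1)))) = 0 := by
  obtain ⟨d, rfl⟩ := hc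
  have hz : ((p ^ a : ℕ) : ZMod (p ^ (a + 1))) * ((p * d : ℤ) : ZMod (p ^ (a + 1))) = 0 := by
    have : ((p ^ (a + 1) : ℕ) : ZMod (p ^ (a + 1))) = 0 := ZMod.natCast_self _
    push_cast at this ⊢
    rw [← mul_assoc, ← pow_succ, this, zero_mul]
  have e : p ^ (a + 1) * m = p ^ a * (p * m) := by ring
  rw [e, sum_periodic (fun j : ℕ => F (t - j * ((p * d : ℤ) : ZMod (p ^ (a + 1))))) (p ^ a)
    (fun j => ?_) (p * m), nsmul_eq_mul]
  · push_cast
    simp
  · show F _ = F _
    congr 1
    rw [Nat.cast_add, add_mul, hz, zero_add]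

/-- The product of powers of the generators with given exponents. -/
def pw (n : Fin k → ℕ) : FreeGroup (Fin k) := (List.ofFn fun i : Fin k => FreeGroup.of i ^ n i).prod

theorem rho_pow (hp : p.Prime) (a m : ℕ) (x y : Fin k) (g : FreeGroup (Fin k)) :
    rho p (p ^ (a + 1)) x y (g ^ (p ^ (a + 1) * m)) =
      ⟨0, fun _ => if (p : ℤ) ∣ ez x g then 0 else m * (ez y g : ZMod p)⟩ := by
  have : NeZero p := ⟨hp.ne_zero⟩
  have : NeZero (p ^ (a + 1)) := ⟨pow_ne_zero _ hp.ne_zero⟩
  rw [map_pow, pow_def]
  ext t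
  · simp only
    rw [Nat.cast_mul, ZMod.natCast_self]
    ring
  · simp only
    rw [rho_e]
    split_ifs with h
    · exact sum_nonunit a _ _ t h m
    · rw [sum_unit _ _ t ?_ m, rho_s]
      rw [ZMod.coe_int_isUnit_iff_isCoprime]
      have h1 : IsCoprime (p : ℤ) (ez x g) :=
        (Prime.coprime_iff_not_dvd (Nat.prime_iff_prime_int.mp hp)).mpr h
      rw [Nat.cast_pow]
      exact h1.pow_left

theorem rho_pw (hp : p.Prime) (a : ℕ) (φ : FreeGroup (Fin k) →* FreeGroup (Fin k))
    (m : Fin k → ℕ) (x y : Fin k) :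
    rho p (p ^ (a + 1)) x y (φ (pw fun i => p ^ (a + 1) * m i)) = ⟨0, fun _ => ∑ i,
      if (p : ℤ) ∣ ez x (φ (FreeGroup.of i)) then 0 else
        m i * (ez y (φ (FreeGroup.of i)) : ZMod p)⟩ := by
  have h1 : rho p (p ^ (a + 1)) x y (φ (pw fun i => p ^ (a + 1) * m i)) =
      (List.ofFn fun i : Fin k =>
      J p (p ^ (a + 1)) (Multiplicative.ofAdd (if (p : ℤ) ∣ ez x (φ (FreeGroup.of i)) then 0 else
        m i * (ez y (φ (FreeGroup.of i)) : ZMod p)))).prod := by
    rw [pw, map_list_prod, map_list_prod, List.map_map, List.map_ofFn]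
    congr 2
    funext i
    simp only [Function.comp_apply]
    rw [map_pow, rho_pow hp]
    rfl
  have h2 : (List.ofFn fun i : Fin k =>
      J p (p ^ (a + 1)) (Multiplicative.ofAdd (if (p : ℤ) ∣ ez x (φ (FreeGroup.of i)) then 0 else
        m i * (ez y (φ (FreeGroup.of i)) : ZMod p)))) = (List.ofFn fun i : Fin k =>
      (Multiplicative.ofAdd (if (p : ℤ) ∣ ez x (φ (FreeGroup.of i)) then 0 else
        m i * (ez y (φ (FreeGroup.of i)) : ZMod p)))).map (J p (p ^ (a + 1))) := by
    rw [List.map_ofFn]
    rfl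
  rw [h1, h2, ← map_list_prod, List.prod_ofFn, ← ofAdd_sum]
  rfl

theorem ez_pw (φ : FreeGroup (Fin k) →* FreeGroup (Fin k)) (n : Fin k → ℕ) (x : Fin k) :
    ez x (φ (pw n)) = ∑ i, n i * ez x (φ (FreeGroup.of i)) := by
  have h1 : (Ez x) (φ (pw n)) = (List.ofFn fun i : Fin k =>
      (Ez x (φ (FreeGroup.of i))) ^ n i).prod := by
    rw [pw, map_list_prod, map_list_prod, List.map_map, List.map_ofFn]
    congr 2
    funext i
    simp only [Function.comp_apply, map_pow]
  rw [ez, h1, List.prod_ofFn, toAdd_prod]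
  simp [ez]

/-- The exponent sum is bounded by the number of occurrences. -/
theorem ez_le_occ (x : Fin k) : ∀ L : List (Fin k × Bool), |ez x (FreeGroup.mk L)| ≤ occ x L
  | [] => by
    rw [← FreeGroup.one_eq_mk, ez_one]
    simp
  | a :: L => by
    have ih := ez_le_occ x L
    rw [mk_cons', ez_mul]
    obtain ⟨y, e⟩ := a
    unfold occ at ih ⊢
    by_cases h : y = x
    · rw [List.countP_cons_of_pos (by simpa using h)]
      have : |ez x (cond (y, e).2 (FreeGroup.of (y, e).1) (FreeGroup.of (y, e).1)⁻¹)| = 1 := by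
        cases e <;> simp [ez_inv, ez_of, h]
      push_cast
      calc _ ≤ |ez x (cond (y, e).2 (FreeGroup.of (y, e).1) (FreeGroup.of (y, e).1)⁻¹)| +
            |ez x (FreeGroup.mk L)| := abs_add_le _ _
        _ ≤ _ := by rw [this]; linarith
    · rw [List.countP_cons_of_neg (by simpa using h)]
      have : ez x (cond (y, e).2 (FreeGroup.of (y, e).1) (FreeGroup.of (y, e).1)⁻¹) = 0 := by
        cases e <;> simp [ez_inv, ez_of, h]
      rw [this, zero_add]
      exact ih

theorem rho_letter_self (x y : Fin k) (hy : y ≠ x) (e : Bool) :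
    rho p q x y (cond e (FreeGroup.of x) (FreeGroup.of x)⁻¹) = ⟨cond e 1 (-1), fun _ => 0⟩ := by
  have h' : x ≠ y := fun h => hy h.symm
  cases e
  · simp only [cond_false, _root_.map_inv, rho, lift_apply_of, inv_def, h', false_and, if_false,
      if_true, neg_zero]
  · simp only [cond_true, rho, lift_apply_of, h', false_and, if_false, if_true]

theorem rho_letter_other (x y z : Fin k) (hz : z ≠ x) (e : Bool) :
    ∃ r : ZMod p, rho p q x y (cond e (FreeGroup.of z) (FreeGroup.of z)⁻¹) =
      ⟨0, fun t => if t = 0 then r else 0⟩ := by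
  cases e
  · refine ⟨if z = y then -1 else 0, ?_⟩
    simp only [cond_false, _root_.map_inv, rho, lift_apply_of, inv_def, hz, if_false]
    ext t
    · simp
    · by_cases h1 : z = y <;> by_cases h2 : t = 0 <;> simp [h1, h2]
  · refine ⟨if z = y then 1 else 0, ?_⟩
    simp only [cond_true, rho, lift_apply_of, hz, if_false]
    ext t
    · simp
    · by_cases h1 : z = y <;> by_cases h2 : t = 0 <;> simp [h1, h2]

/-- The support of the derivative. -/
theorem supp (x y : Fin k) (hy : y ≠ x) : ∀ L : List (Fin k × Bool), ∃ S : Finset (ZMod q),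
    S.card ≤ occ x L + 1 ∧ 0 ∈ S ∧ (rho p q x y (FreeGroup.mk L)).e ∈ S ∧
      ∀ t, t ∉ S → (rho p q x y (FreeGroup.mk L)).f t = 0
  | [] => by
    classical
    refine ⟨{0}, by simp, by simp, ?_, ?_⟩
    · rw [← FreeGroup.one_eq_mk, _root_.map_one, one_def]
      simp
    · intro t _
      rw [← FreeGroup.one_eq_mk, _root_.map_one, one_def]
  | a :: L => by
    classical
    obtain ⟨S, h1, h2, h3, h4⟩ := supp x y hy L
    obtain ⟨z, e⟩ := a
    by_cases hz : z = x
    · subst hz
      refine ⟨insert 0 (S.image fun t => cond e 1 (-1) + t), ?_, by simp, ?_, ?_⟩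
      · have : occ z ((z, e) :: L) = occ z L + 1 := by
          unfold occ
          rw [List.countP_cons_of_pos (by simp)]
        rw [this]
        refine (Finset.card_insert_le _ _).trans ?_
        have := Finset.card_image_le (s := S) (f := fun t => (cond e 1 (-1) : ZMod q) + t)
        omega
      · rw [mk_cons', _root_.map_mul]
        simp only [rho_letter_self z y hy, mul_def]
        exact Finset.mem_insert_of_mem (Finset.mem_image_of_mem _ h3)
      · intro t ht
        rw [mk_cons', _root_.map_mul]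
        simp only [rho_letter_self z y hy, mul_def, zero_add]
        apply h4
        intro h
        apply ht
        refine Finset.mem_insert_of_mem (Finset.mem_image.mpr ⟨_, h, ?_⟩)
        ring
    · refine ⟨S, ?_, h2, ?_, ?_⟩
      · have : occ x ((z, e) :: L) = occ x L := by
          unfold occ
          rw [List.countP_cons_of_neg (by simpa using hz)]
        rw [this]
        exact h1
      · obtain ⟨r, hr⟩ := rho_letter_other (p := p) (q := q) x y z hz e
        rw [mk_cons', _root_.map_mul]
        simp only [hr, mul_def, zero_add]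
        exact h3
      · intro t ht
        obtain ⟨r, hr⟩ := rho_letter_other (p := p) (q := q) x y z hz e
        rw [mk_cons', _root_.map_mul]
        simp only [hr, mul_def, sub_zero]
        rw [h4 t ht, if_neg, zero_add]
        rintro rfl
        exact ht h2

theorem supp_zero (x y : Fin k) (hy : y ≠ x) : ∀ L : List (Fin k × Bool), occ x L = 0 →
    ∃ r : ZMod p, rho p q x y (FreeGroup.mk L) = ⟨0, fun t => if t = 0 then r else 0⟩
  | [], _ => by
    refine ⟨0, ?_⟩
    rw [← FreeGroup.one_eq_mk, _root_.map_one, one_def]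
    ext t <;> simp
  | a :: L, h => by
    obtain ⟨z, e⟩ := a
    have hz : z ≠ x := by
      unfold occ at h
      rw [List.countP_eq_zero] at h
      simpa using h (z, e) (by simp)
    have h2 : occ x L = 0 := by
      unfold occ at h ⊢
      rw [List.countP_eq_zero] at h ⊢
      exact fun b hb => h b (List.mem_cons_of_mem _ hb)
    obtain ⟨r, hr⟩ := supp_zero x y hy L h2
    obtain ⟨r', hr'⟩ := rho_letter_other (p := p) (q := q) x y z hz e
    refine ⟨r' + r, ?_⟩
    rw [mk_cons', _root_.map_mul, hr, hr', mul_def]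
    ext t
    · simp
    · by_cases ht : t = 0 <;> simp [ht]

/-- If the exponent is zero then the support has at most as many elements as there are
occurrences of the letter. -/
theorem supp_closed [NeZero q] (x y : Fin k) (hy : y ≠ x) (L : List (Fin k × Bool))
    (h0 : 0 < occ x L) (hq : occ x L < q) (he : (rho p q x y (FreeGroup.mk L)).e = 0) :
    ∃ t, (rho p q x y (FreeGroup.mk L)).f t = 0 := by
  classical
  obtain ⟨n, hn⟩ : ∃ n, occ x L = n + 1 := ⟨occ x L - 1, by omega⟩
  obtain ⟨L1, L2, e, rfl, h1, h2⟩ := split_occ x n L hn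
  obtain ⟨r, hr⟩ := supp_zero (p := p) (q := q) x y hy L1 h1
  obtain ⟨S, g1, g2, g3, g4⟩ := supp (p := p) (q := q) x y hy L2
  have hl := rho_letter_self (p := p) (q := q) x y hy e
  have hform : rho p q x y (FreeGroup.mk (L1 ++ (x, e) :: L2)) =
      ⟨cond e 1 (-1) + (rho p q x y (FreeGroup.mk L2)).e, fun t => (if t = 0 then r else 0) +
        (rho p q x y (FreeGroup.mk L2)).f (t - cond e 1 (-1))⟩ := by
    rw [mk_split, _root_.map_mul, _root_.map_mul, hr, sg, hl, mul_def, mul_def]
    ext t <;> simp
  rw [hform] at he ⊢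
  simp only at he ⊢
  have hcard : (S.image fun t => (cond e 1 (-1) : ZMod q) + t).card < Fintype.card (ZMod q) := by
    rw [ZMod.card]
    refine lt_of_le_of_lt Finset.card_image_le ?_
    omega
  obtain ⟨t, ht⟩ : ∃ t, t ∉ (S.image fun t => (cond e 1 (-1) : ZMod q) + t) := by
    by_contra hcon
    push Not at hcon
    rw [(Finset.eq_univ_iff_forall.mpr hcon), Finset.card_univ] at hcard
    exact lt_irrefl _ hcard
  refine ⟨t, ?_⟩
  rw [if_neg, zero_add]
  · apply g4
    intro h
    apply ht
    exact Finset.mem_image.mpr ⟨_, h, by ring⟩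
  · rintro rfl
    apply ht
    exact Finset.mem_image.mpr ⟨_, g3, he⟩

/-- An additive function is determined by its values at the generators. -/
theorem ez_formula (φ : FreeGroup (Fin k) →* FreeGroup (Fin k)) (j : Fin k)
    (g : FreeGroup (Fin k)) : ez j (φ g) = ∑ c, ez c g * ez j (φ (FreeGroup.of c)) := by
  induction g using FreeGroup.induction_on with
  | C1 => simp [ez_one]
  | of x =>
    simp only [ez_of]
    simp
  | inv_of x _ =>
    simp only [_root_.map_inv, ez_inv, ez_of]
    simp
  | mul x y hx hy =>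
    rw [_root_.map_mul, ez_mul, hx, hy, ← Finset.sum_add_distrib]
    refine Finset.sum_congr rfl fun c _ => ?_
    rw [ez_mul]
    ring

/-- The number of the occurrences of a letter in an image of the product of powers, if it is
positive, is at least the prime power which divides all exponents exactly. -/
theorem occ_ge (hp : p.Prime) (a : ℕ) (m : Fin k → ℕ) (hm : ∀ i, ¬ p ∣ m i)
    (φ : FreeGroup (Fin k) ≃* FreeGroup (Fin k)) (x : Fin k)
    (L : List (Fin k × Bool)) (hL : FreeGroup.mk L = φ (pw fun i => p ^ (a + 1) * m i))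
    (h0 : 0 < occ x L) : p ^ (a + 1) ≤ occ x L := by
  by_contra hlt
  push Not at hlt
  have : NeZero (p ^ (a + 1)) := ⟨pow_ne_zero _ hp.ne_zero⟩
  have : Fact p.Prime := ⟨hp⟩
  set Y : Fin k → Fin k → ZMod p := fun i c => (ez c (φ (FreeGroup.of i)) : ZMod p) with hY
  set Q : Fin k → Fin k → ZMod p := fun c j => (ez j (φ.symm (FreeGroup.of c)) : ZMod p) with hQ
  have hYQ : ∀ i j, ∑ c, Y i c * Q c j = if i = j then 1 else 0 := by
    intro i j
    have h2 := ez_formula φ.symm.toMonoidHom j (φ (FreeGroup.of i))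
    have h3 : φ.symm.toMonoidHom (φ (FreeGroup.of i)) = FreeGroup.of i := by simp
    rw [h3, ez_of] at h2
    have h4 := congrArg (Int.cast : ℤ → ZMod p) h2
    rw [Int.cast_sum] at h4
    simp only [Int.cast_mul] at h4
    rw [hY, hQ]
    refine Eq.trans h4.symm ?_
    split_ifs <;> simp
  have hQY : ∀ c j, ∑ i, Q c i * Y i j = if c = j then 1 else 0 := by
    intro c j
    have h2 := ez_formula φ.toMonoidHom j (φ.symm (FreeGroup.of c))
    have h3 : φ.toMonoidHom (φ.symm (FreeGroup.of c)) = FreeGroup.of c := by simp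
    rw [h3, ez_of] at h2
    have h4 := congrArg (Int.cast : ℤ → ZMod p) h2
    rw [Int.cast_sum] at h4
    simp only [Int.cast_mul] at h4
    rw [hY, hQ]
    refine Eq.trans h4.symm ?_
    split_ifs <;> simp
  have key : ∀ f : Fin k → ZMod p, (∀ c, ∑ i, f i * Y i c = 0) → ∀ j, f j = 0 := by
    intro f hf j
    have h1 : ∑ c, (∑ i, f i * Y i c) * Q c j = f j := by
      simp only [Finset.sum_mul]
      rw [Finset.sum_comm]
      have : ∀ i, ∑ c, f i * Y i c * Q c j = f i * ∑ c, Y i c * Q c j := fun i => by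
        rw [Finset.mul_sum]
        exact Finset.sum_congr rfl fun c _ => by ring
      simp only [this, hYQ]
      simp
    rw [← h1]
    simp [hf]
  -- the total exponent vanishes
  have htot : ez x (φ (pw fun i => p ^ (a + 1) * m i)) = 0 := by
    have h1 := ez_le_occ x L
    rw [hL] at h1
    have h2 : ((p ^ (a + 1) : ℕ) : ℤ) ∣ ez x (φ (pw fun i => p ^ (a + 1) * m i)) := by
      have h3 := ez_pw φ.toMonoidHom (fun i => p ^ (a + 1) * m i) x
      have h4 : φ.toMonoidHom (pw fun i => p ^ (a + 1) * m i) =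
        φ (pw fun i => p ^ (a + 1) * m i) := rfl
      rw [← h4, h3]
      refine Finset.dvd_sum fun i _ => ?_
      rw [Nat.cast_mul, mul_assoc]
      exact dvd_mul_right _ _
    refine Int.eq_zero_of_abs_lt_dvd h2 ?_
    refine lt_of_le_of_lt h1 ?_
    exact_mod_cast hlt
  have htot2 : ∑ i, (m i : ℤ) * ez x (φ (FreeGroup.of i)) = 0 := by
    have h3 := ez_pw φ.toMonoidHom (fun i => p ^ (a + 1) * m i) x
    have h4 : φ.toMonoidHom (pw fun i => p ^ (a + 1) * m i) =
      φ (pw fun i => p ^ (a + 1) * m i) := rfl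
    rw [h4, htot] at h3
    have h5 : ((p ^ (a + 1) : ℕ) : ℤ) * ∑ i, (m i : ℤ) * ez x (φ (FreeGroup.of i)) = 0 := by
      rw [h3, Finset.mul_sum]
      refine Finset.sum_congr rfl fun i _ => ?_
      push_cast
      rw [← mul_assoc]
      rfl
    rcases mul_eq_zero.mp h5 with h6 | h6
    · exact absurd h6 (by exact_mod_cast (pow_ne_zero _ hp.ne_zero))
    · exact h6
  have hS : ∀ c, ∑ i, (if (p : ℤ) ∣ ez x (φ (FreeGroup.of i)) then 0 else (m i : ZMod p)) *
      Y i c = 0 := by
    intro c
    by_cases hc : c = x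
    · subst hc
      have h6 := congrArg (Int.cast : ℤ → ZMod p) htot2
      rw [Int.cast_sum, Int.cast_zero] at h6
      refine Eq.trans (Finset.sum_congr rfl fun i _ => ?_) h6
      split_ifs with h7
      · rw [zero_mul, Int.cast_mul, (ZMod.intCast_zmod_eq_zero_iff_dvd _ _).mpr h7, mul_zero]
      · rw [hY]
        push_cast
        rfl
    · have h6 := rho_pw hp a φ.toMonoidHom m x c
      have h4 : φ.toMonoidHom (pw fun i => p ^ (a + 1) * m i) =
        φ (pw fun i => p ^ (a + 1) * m i) := rfl
      rw [h4, ← hL] at h6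
      obtain ⟨t, ht⟩ := supp_closed (p := p) (q := p ^ (a + 1)) x c hc L h0 hlt
        (by rw [h6])
      rw [h6] at ht
      simp only at ht
      refine Eq.trans (Finset.sum_congr rfl fun i _ => ?_) ht
      rw [ite_mul, zero_mul]
      rfl
  have h8 := key _ hS
  have h9 : ∀ i, Y i x = 0 := by
    intro i
    have h10 := h8 i
    split_ifs at h10 with h7
    · rw [hY]
      exact (ZMod.intCast_zmod_eq_zero_iff_dvd _ _).mpr h7
    · exact absurd ((ZMod.natCast_eq_zero_iff _ _).mp h10) (hm i)
  have h11 := hQY x x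
  simp [h9] at h11

end Pool.Agent.Y860.OG
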