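import Mathlib
import Pool.Agent.Y860.OG.Fox

set_option autoImplicit false

/-!
# Growth of the set of cyclic words in the orbit of a product of powers of the generators
-/

namespace Pool.Agent.Y860.OG

open FreeGroup Filter Topology Pool.Agent.H67R4.OG

variable {k : ℕ} {m : ℕ}

/-- The word of a product of powers of the generators. -/
def fullW (n : Fin k → ℕ) : List (Fin k × Bool) :=
  (List.ofFn fun i : Fin k => List.replicate (n i) (i, true)).flatten

theorem fullW_pos (n : Fin k → ℕ) : ∀ a ∈ fullW n, a.2 = true := by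
  intro a ha
  rw [fullW, List.mem_flatten] at ha
  obtain ⟨l, hl, hal⟩ := ha
  rw [List.mem_ofFn] at hl
  obtain ⟨i, rfl⟩ := hl
  rw [(List.mem_replicate.mp hal).2]

theorem mk_replicate (x : Fin k) (N : ℕ) :
    (FreeGroup.mk (List.replicate N (x, true)) : FreeGroup (Fin k)) = FreeGroup.of x ^ N := by
  induction N with
  | zero => rw [List.replicate_zero, ← FreeGroup.one_eq_mk, pow_zero]
  | succ N ih =>
    rw [List.replicate_succ, mk_cons', ih, pow_succ']
    rfl

theorem mk_fullW (n : Fin k → ℕ) : (FreeGroup.mk (fullW n) : FreeGroup (Fin k)) = pw n := by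
  rw [fullW, mk_flatten, List.map_ofFn, pw]
  congr 2
  funext i
  exact mk_replicate i (n i)

theorem pw_toWord (n : Fin k → ℕ) : (pw n).toWord = fullW n := by
  rw [← mk_fullW, toWord_mk, (chain_pos _ (fullW_pos n)).reduce_eq]

theorem occ_pw (n : Fin k → ℕ) (x : Fin k) : occ x (pw n).toWord = n x := by
  rw [pw_toWord, fullW, occ, List.countP_flatten, List.map_ofFn, List.sum_ofFn]
  have : ∀ i : Fin k, (List.countP (fun a : Fin k × Bool => decide (a.1 = x)) ∘
      fun i : Fin k => List.replicate (n i) (i, true)) i = if i = x then n i else 0 := by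
    intro i
    rw [Function.comp_apply, List.countP_replicate]
    by_cases h : i = x
    · simp [h]
    · simp [h]
  simp only [this]
  simp

theorem pw_cyc (n : Fin k → ℕ) : IsCyclicallyReduced (pw n).toWord := by
  refine ⟨isReduced_toWord, fun a ha b hb _ => ?_⟩
  rw [pw_toWord] at ha hb
  rw [fullW_pos n a (List.mem_of_mem_getLast? ha), fullW_pos n b (List.mem_of_mem_head? hb)]

/-- The word of the product of the powers of the generators different from the first one. -/
def tailP (n : Fin (m + 3) → ℕ) : List (Fin (m + 3) × Bool) :=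
  (List.ofFn fun i : Fin (m + 2) => List.replicate (n i.succ) (i.succ, true)).flatten

theorem tailP_pos (n : Fin (m + 3) → ℕ) : ∀ a ∈ tailP n, a.2 = true := by
  intro a ha
  rw [tailP, List.mem_flatten] at ha
  obtain ⟨l, hl, hal⟩ := ha
  rw [List.mem_ofFn] at hl
  obtain ⟨i, rfl⟩ := hl
  rw [(List.mem_replicate.mp hal).2]

theorem tailP_eq (n : Fin (m + 3) → ℕ) (hn : ∀ i, 0 < n i) : ∃ R : List (Fin (m + 3) × Bool),
    tailP n = ((0 : Fin (m + 2)).succ, true) :: R := by
  obtain ⟨N, hN⟩ : ∃ N, n (0 : Fin (m + 2)).succ = N + 1 :=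
    ⟨n (0 : Fin (m + 2)).succ - 1, by have := hn (0 : Fin (m + 2)).succ; omega⟩
  refine ⟨List.replicate N ((0 : Fin (m + 2)).succ, true) ++ (List.ofFn fun i : Fin (m + 1) =>
    List.replicate (n i.succ.succ) (i.succ.succ, true)).flatten, ?_⟩
  rw [tailP, List.ofFn_succ, List.flatten_cons, hN, List.replicate_succ]
  rfl

theorem tailP_length (n : Fin (m + 3) → ℕ) :
    (tailP n).length = ∑ i : Fin (m + 2), n i.succ := by
  rw [tailP, List.length_flatten, List.map_ofFn, List.sum_ofFn]
  refine Finset.sum_congr rfl fun i _ => ?_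
  simp

theorem mk_tailP (n : Fin (m + 3) → ℕ) : (FreeGroup.mk (tailP n) : FreeGroup (Fin (m + 3))) =
    (List.ofFn fun i : Fin (m + 2) => FreeGroup.of i.succ ^ n i.succ).prod := by
  rw [tailP, mk_flatten, List.map_ofFn]
  congr 2
  funext i
  exact mk_replicate i.succ (n i.succ)

/-- The word of the image. -/
def wordP (n : Fin (m + 3) → ℕ) (D : List (Fin (m + 2) × Bool)) : List (Fin (m + 3) × Bool) :=
  Cw D ++ (List.replicate (n 0) (0, true) ++ (invRev (Cw D) ++ tailP n))

theorem wordP_length (n : Fin (m + 3) → ℕ) (D : List (Fin (m + 2) × Bool)) :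
    (wordP n D).length = 2 * D.length + (2 + ∑ i, n i) := by
  rw [Fin.sum_univ_succ]
  simp only [wordP, Cw, List.length_append, List.length_map, List.length_cons, invRev_length,
    tailP_length, List.length_replicate]
  ring

theorem wordP_cyc (n : Fin (m + 3) → ℕ) (hn : ∀ i, 0 < n i) (D : List (Fin (m + 2) × Bool))
    (hD : IsReduced (((1 : Fin (m + 2)), true) :: D)) : IsCyclicallyReduced (wordP n D) := by
  have hC := Cw_red D hD
  have hi : IsReduced (invRev (Cw D)) := by
    apply IsReduced.of_reduce_eq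
    rw [reduce_invRev, hC.reduce_eq]
  obtain ⟨R, hR⟩ := tailP_eq n hn
  have hpos := tailP_pos n
  have hT : IsReduced (tailP n) := chain_pos _ hpos
  have hZ : IsReduced (List.replicate (n 0) ((0 : Fin (m + 3)), true)) := by
    apply chain_pos
    intro a ha
    rw [(List.mem_replicate.mp ha).2]
  have hinv : ∀ a ∈ invRev (Cw D), a.1 ≠ 0 := by
    intro a ha
    rw [invRev, List.mem_reverse, List.mem_map] at ha
    obtain ⟨b, hb, rfl⟩ := ha
    exact Cw_ne D b hb
  refine ⟨?_, ?_⟩
  · unfold FreeGroup.IsReduced at hC hi hT hZ ⊢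
    rw [wordP, List.isChain_append, List.isChain_append, List.isChain_append]
    refine ⟨hC, ⟨hZ, ⟨hi, hT, ?_⟩, ?_⟩, ?_⟩
    · intro a ha b hb h
      rw [hR] at hb
      have hb' : b = ((0 : Fin (m + 2)).succ, true) := by simpa using hb.symm
      have ha' : a = ((1 : Fin (m + 2)).succ, false) := by
        have : invRev (Cw D) = invRev (D.map fun a => (a.1.succ, a.2)) ++
            [((1 : Fin (m + 2)).succ, false)] := by
          rw [Cw, List.map_cons, invRev_cons]
          rfl
        rw [this, List.getLast?_append] at ha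
        simpa using ha.symm
      rw [ha', hb'] at h
      have h' : (1 : Fin (m + 2)).succ = (0 : Fin (m + 2)).succ := h
      have := Fin.succ_injective _ h'
      simp at this
    · intro a ha b hb h
      have ha' : a = (0, true) := (List.mem_replicate.mp (List.mem_of_mem_getLast? ha)).2
      have hb' : b.1 ≠ 0 := by
        apply hinv
        have hne : invRev (Cw D) ≠ [] := by
          intro h
          have := congrArg List.length h
          simp [Cw] at this
        rw [List.head?_append_of_ne_nil _ hne] at hb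
        exact List.mem_of_mem_head? hb
      rw [ha'] at h
      exact absurd h.symm hb'
    · intro a ha b hb h
      have hne : List.replicate (n 0) ((0 : Fin (m + 3)), true) ≠ [] := by
        intro h
        have := congrArg List.length h
        rw [List.length_replicate] at this
        have := hn 0
        simp at *
        omega
      rw [List.head?_append_of_ne_nil _ hne] at hb
      have hb' : b = (0, true) := (List.mem_replicate.mp (List.mem_of_mem_head? hb)).2
      have ha' : a.1 ≠ 0 := Cw_ne D a (List.mem_of_mem_getLast? ha)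
      rw [hb'] at h
      exact absurd h ha'
  · intro a ha b hb h
    have hb' : b = ((1 : Fin (m + 2)).succ, true) := by
      simp [wordP, Cw] at hb
      simpa using hb.symm
    have ha' : a ∈ tailP n := by
      have hne : tailP n ≠ [] := by rw [hR]; simp
      rw [wordP, ← List.append_assoc, ← List.append_assoc, List.getLast?_append,
        List.getLast?_eq_some_getLast hne] at ha
      simp at ha
      rw [← ha]
      exact List.getLast_mem hne
    rw [hb', hpos a ha']

theorem mk_wordP (n : Fin (m + 3) → ℕ) (D : List (Fin (m + 2) × Bool)) :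
    (FreeGroup.mk (wordP n D)) =
    conjAut (FreeGroup.mk (((1 : Fin (m + 2)), true) :: D)) (pw n) := by
  have hc : (FreeGroup.mk (Cw D) : FreeGroup (Fin (m + 3))) =
      FreeGroup.map Fin.succ (FreeGroup.mk (((1 : Fin (m + 2)), true) :: D)) := by
    rw [FreeGroup.map.mk]
    rfl
  have h1 : ∀ g, conjAut (FreeGroup.mk (((1 : Fin (m + 2)), true) :: D)) g =
      Fh (FreeGroup.mk (Cw D) * FreeGroup.of 0 * (FreeGroup.mk (Cw D))⁻¹) g := fun g => by
    rw [hc]
    rfl
  rw [h1, pw, List.ofFn_succ, List.prod_cons, _root_.map_mul, _root_.map_pow, Fh_zero,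
    map_list_prod, List.map_ofFn]
  have h2 : (⇑(Fh (FreeGroup.mk (Cw D) * FreeGroup.of 0 * (FreeGroup.mk (Cw D))⁻¹)) ∘
      fun i : Fin (m + 2) => FreeGroup.of i.succ ^ n i.succ) =
      fun i => FreeGroup.of i.succ ^ n i.succ := by
    funext i
    simp only [Function.comp_apply, _root_.map_pow, Fh_succ]
  rw [h2, ← mk_tailP, wordP, ← FreeGroup.mul_mk, ← FreeGroup.mul_mk, ← FreeGroup.mul_mk,
    ← FreeGroup.inv_mk, mk_replicate]
  generalize (FreeGroup.mk (Cw D) : FreeGroup (Fin (m + 3))) = c
  rw [conj_pow]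
  simp only [mul_assoc]

theorem wordP_inj (n : Fin (m + 3) → ℕ) (D D' : List (Fin (m + 2) × Bool))
    (hl : D.length = D'.length) (h : wordP n D = wordP n D') : D = D' := by
  unfold wordP at h
  have h1 := List.append_inj_left h (by simp [Cw, hl])
  rw [Cw, Cw] at h1
  have h2 : Function.Injective (fun a : Fin (m + 2) × Bool => (a.1.succ, a.2)) := by
    rintro ⟨a, b⟩ ⟨a', b'⟩ h
    simp only [Prod.mk.injEq] at h
    rw [Fin.succ_injective _ h.1, h.2]
  have h3 := List.map_injective_iff.mpr h2 h1
  simpa using h3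

theorem count_lowerP (n : Fin (m + 3) → ℕ) (hn : ∀ i, 0 < n i) (c : ℕ) : (2 * m + 3) ^ c ≤
    (2 * c + (2 + ∑ i, n i)) * (CyclicWords (pw n) (2 * c + (2 + ∑ i, n i))).ncard := by
  classical
  set T := H307AO.conj_lower_words (Y := Fin (m + 2)) c ((1 : Fin (m + 2)), true) with hT
  have hcard : T.card = (2 * m + 3) ^ c := by
    rw [hT, H307AO.conj_lower_card, Fintype.card_fin]
    congr 1
  set f : List (Fin (m + 2) × Bool) → ConjClasses (FreeGroup (Fin (m + 3))) :=
    fun D => ConjClasses.mk (FreeGroup.mk (wordP n D)) with hf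
  have hspec : ∀ D ∈ T, D.length = c ∧ IsReduced (((1 : Fin (m + 2)), true) :: D) :=
    fun D hD => H307AO.conj_lower_spec c _ D hD
  have h1 : T.card ≤ (2 * c + (2 + ∑ i, n i)) * (T.image f).card := by
    refine Finset.card_le_mul_card_image T _ ?_
    intro b hb
    rw [Finset.mem_image] at hb
    obtain ⟨D0, hD0, rfl⟩ := hb
    have h2 : (T.filter fun a => f a = f D0).card ≤
        ((wordP n D0).cyclicPermutations).toFinset.card := by
      refine Finset.card_le_card_of_injOn (wordP n) ?_ ?_
      · intro D hD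
        rw [Finset.mem_coe, Finset.mem_filter] at hD
        rw [Finset.mem_coe, List.mem_toFinset, List.mem_cyclicPermutations_iff]
        exact conj_rot (wordP_cyc n hn D (hspec D hD.1).2) (wordP_cyc n hn D0 (hspec D0 hD0).2)
          (ConjClasses.mk_eq_mk_iff_isConj.mp hD.2)
      · intro D hD D' hD' h
        rw [Finset.mem_coe, Finset.mem_filter] at hD hD'
        exact wordP_inj n D D' (by rw [(hspec D hD.1).1, (hspec D' hD'.1).1]) h
    refine h2.trans ((List.toFinset_card_le _).trans ?_)
    rw [List.length_cyclicPermutations_of_ne_nil, wordP_length, (hspec D0 hD0).1]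
    intro h
    have := congrArg List.length h
    rw [wordP_length, List.length_nil] at this
    omega
  have h3 : (T.image f).card ≤ (CyclicWords (pw n) (2 * c + (2 + ∑ i, n i))).ncard := by
    rw [← Set.ncard_coe_finset]
    refine Set.ncard_le_ncard ?_ (cyclicWords_bound _ _).1
    intro C hC
    rw [Finset.mem_coe, Finset.mem_image] at hC
    obtain ⟨D, hD, rfl⟩ := hC
    refine ⟨⟨conjAut (FreeGroup.mk (((1 : Fin (m + 2)), true) :: D)), ?_⟩, wordP n D,
      wordP_cyc n hn D (hspec D hD).2, ?_, rfl⟩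
    · simp only [hf]
      rw [mk_wordP]
    · rw [wordP_length, (hspec D hD).1]
  rw [← hcard]
  exact h1.trans (Nat.mul_le_mul_left _ h3)

theorem growth_lowerP (n : Fin (m + 3) → ℕ) (hn : ∀ i, 0 < n i) :
    Real.sqrt (2 * m + 3) ≤ growth (pw n) := by
  obtain ⟨S, hS⟩ : ∃ S, 2 + ∑ i, n i = S := ⟨_, rfl⟩
  refine le_of_forall_lt_imp_le_of_dense ?_
  intro r hr
  set q : ℝ := max r 1 with hq
  have hB : (0 : ℝ) < 2 * m + 3 := by positivity
  have hq1 : 1 ≤ q := le_max_right _ _
  have hqB : q < Real.sqrt (2 * m + 3) := by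
    rw [hq, max_lt_iff]
    refine ⟨hr, ?_⟩
    rw [Real.lt_sqrt (by norm_num)]
    have : (0 : ℝ) ≤ m := Nat.cast_nonneg m
    linarith
  refine (le_max_left r 1).trans ?_
  refine le_limsup_of_frequently_le ?_ (bounded_seq _)
  rw [frequently_atTop]
  intro N0
  have hq2 : q ^ 2 / (2 * m + 3) < 1 := by
    rw [div_lt_one hB]
    exact (Real.lt_sqrt (by linarith)).mp hqB
  have hq0 : 0 ≤ q ^ 2 / (2 * m + 3) := by positivity
  have ht1 : Tendsto (fun c : ℕ => (c : ℝ) * (q ^ 2 / (2 * m + 3)) ^ c) atTop (𝓝 0) :=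
    tendsto_self_mul_const_pow_of_lt_one hq0 hq2
  have ht2 : Tendsto (fun c : ℕ => (q ^ 2 / (2 * m + 3)) ^ c) atTop (𝓝 0) :=
    tendsto_pow_atTop_nhds_zero_of_lt_one hq0 hq2
  have ht3 : Tendsto (fun c : ℕ => (2 * q ^ S) * ((c : ℝ) * (q ^ 2 / (2 * m + 3)) ^ c) +
      (S * q ^ S) * (q ^ 2 / (2 * m + 3)) ^ c) atTop (𝓝 0) := by
    have := (ht1.const_mul (2 * q ^ S)).add
      (ht2.const_mul ((S : ℝ) * q ^ S))
    simpa using this
  obtain ⟨c, hc1, hc2, hc3⟩ := ((ht3.eventually_lt_const one_pos).and
    ((eventually_ge_atTop N0).and (eventually_ge_atTop 1))).exists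
  refine ⟨2 * c + S, by omega, ?_⟩
  have hlow0 := count_lowerP n hn c
  rw [hS] at hlow0
  set M := (CyclicWords (pw n) (2 * c + S)).ncard with hM
  have hlow : ((2 : ℝ) * m + 3) ^ c ≤ (2 * c + S) * (M : ℝ) := by
    exact_mod_cast hlow0
  have hc0 : (1 : ℝ) ≤ c := by exact_mod_cast hc3
  have hN : (0 : ℝ) < 2 * (c : ℝ) + S := by positivity
  have hpow : q ^ (2 * c + S) ≤ (M : ℝ) := by
    have e1 : q ^ (2 * c + S) = q ^ S * (q ^ 2) ^ c := by
      rw [← pow_mul, ← pow_add]
      congr 1
      ring
    have e2 : (q ^ 2 / (2 * m + 3)) ^ c * (2 * m + 3) ^ c = (q ^ 2) ^ c := by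
      rw [← mul_pow, div_mul_cancel₀ _ hB.ne']
    have e3 : (2 * (c : ℝ) + S) * q ^ (2 * c + S) ≤ (2 * m + 3) ^ c := by
      rw [e1, ← e2]
      have hBc : (0 : ℝ) < (2 * m + 3) ^ c := by positivity
      have := mul_le_mul_of_nonneg_right hc1.le hBc.le
      rw [one_mul] at this
      refine le_trans (le_of_eq ?_) this
      ring
    exact le_of_mul_le_mul_left (e3.trans hlow) hN
  have hM0 : (0 : ℝ) ≤ q ^ (2 * c + S) := by positivity
  calc q = (q ^ (2 * c + S)) ^ (((2 * c + S : ℕ) : ℝ)⁻¹) := by
        rw [Real.pow_rpow_inv_natCast (by linarith) (by omega)]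
    _ ≤ (M : ℝ) ^ ((1 : ℝ) / ((2 * c + S : ℕ) : ℝ)) := by
        rw [one_div]
        exact Real.rpow_le_rpow hM0 hpow (by positivity)

end Pool.Agent.Y860.OG
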