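import Mathlib
import Pool.Agent.Y860.OG.Gr

set_option autoImplicit false

/-!
# Powers of a generator
-/

namespace Pool.Agent.Y860.OG

open FreeGroup Filter Topology Pool.Agent.H67R4.OG

variable {k : ℕ}

theorem occ_flatten_replicate (x : Fin k) (n : ℕ) (L : List (Fin k × Bool)) :
    occ x (List.replicate n L).flatten = n * occ x L := by
  induction n with
  | zero => simp [occ]
  | succ n ih =>
    unfold occ at ih ⊢
    rw [List.replicate_succ, List.flatten_cons, List.countP_append, ih]
    ring

theorem mk_flatten_replicate (n : ℕ) (L : List (Fin k × Bool)) :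
    (FreeGroup.mk (List.replicate n L).flatten : FreeGroup (Fin k)) = FreeGroup.mk L ^ n := by
  rw [mk_flatten, List.map_replicate, List.prod_replicate]

/-- A cyclically reduced word of a conjugate of a power is a rotation of a power of a word. -/
theorem rot_pow (g : FreeGroup (Fin k)) (n : ℕ) (L : List (Fin k × Bool))
    (hL : IsCyclicallyReduced L) (h : IsConj (FreeGroup.mk L) (g ^ n)) :
    ∃ M : List (Fin k × Bool), L ~r (List.replicate n M).flatten := by
  classical
  refine ⟨reduceCyclically g.toWord, ?_⟩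
  have hM : IsCyclicallyReduced (reduceCyclically g.toWord) :=
    reduceCyclically.isCyclicallyReduced isReduced_toWord
  refine conj_rot hL (hM.flatten_replicate n) ?_
  refine h.trans ?_
  rw [mk_flatten_replicate]
  have h1 := reduceCyclically.conj_conjugator_reduceCyclically g.toWord
  have h2 : g = FreeGroup.mk (reduceCyclically.conjugator g.toWord) *
      FreeGroup.mk (reduceCyclically g.toWord) *
      (FreeGroup.mk (reduceCyclically.conjugator g.toWord))⁻¹ := by
    rw [FreeGroup.inv_mk, FreeGroup.mul_mk, FreeGroup.mul_mk, h1, mk_toWord]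
  have h3 : IsConj (FreeGroup.mk (reduceCyclically g.toWord)) g := by
    rw [isConj_iff]
    exact ⟨_, h2.symm⟩
  exact (h3.pow n).symm

theorem occ_power (φ : FreeGroup (Fin k) ≃* FreeGroup (Fin k)) (x y : Fin k) (n : ℕ)
    (hc : IsCyclicallyReduced (φ (FreeGroup.of x ^ n)).toWord)
    (h0 : 0 < occ y (φ (FreeGroup.of x ^ n)).toWord) :
    n ≤ occ y (φ (FreeGroup.of x ^ n)).toWord := by
  obtain ⟨M, hM⟩ := rot_pow (φ (FreeGroup.of x)) n _ hc (by
    rw [mk_toWord, _root_.map_pow])
  have h1 : occ y (φ (FreeGroup.of x ^ n)).toWord = n * occ y M := by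
    rw [← occ_flatten_replicate]
    exact hM.perm.countP_eq _
  rw [h1] at h0 ⊢
  have : 0 < occ y M := by
    rcases Nat.eq_zero_or_pos (occ y M) with h | h
    · rw [h] at h0
      simp at h0
    · exact h
  exact Nat.le_mul_of_pos_right _ this

theorem toWord_of_pow (y : Fin k) (n : ℕ) :
    (FreeGroup.of y ^ n).toWord = List.replicate n (y, true) := by
  rw [← mk_replicate, toWord_mk]
  refine (chain_pos _ ?_).reduce_eq
  intro a ha
  rw [(List.mem_replicate.mp ha).2]

theorem muCyc_power (x y : Fin k) (n : ℕ) (hn : 0 < n) : muCyc y (FreeGroup.of x ^ n) = n := by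
  have h3 : n ∈ {m | 0 < m ∧ ∃ φ : FreeGroup (Fin k) ≃* FreeGroup (Fin k),
      IsCyclicallyReduced (φ (FreeGroup.of x ^ n)).toWord ∧
        occ y (φ (FreeGroup.of x ^ n)).toWord = m} := by
    refine ⟨hn, FreeGroup.freeGroupCongr (Equiv.swap x y), ?_, ?_⟩
    · have : FreeGroup.freeGroupCongr (Equiv.swap x y) (FreeGroup.of x ^ n) =
          FreeGroup.of y ^ n := by
        rw [_root_.map_pow]
        simp
      rw [this, toWord_of_pow]
      have h := toWord_of_pow y n
      refine ⟨by rw [← h]; exact isReduced_toWord, fun a ha b hb _ => ?_⟩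
      rw [(List.mem_replicate.mp (List.mem_of_mem_getLast? ha)).2,
        (List.mem_replicate.mp (List.mem_of_mem_head? hb)).2]
    · have : FreeGroup.freeGroupCongr (Equiv.swap x y) (FreeGroup.of x ^ n) =
          FreeGroup.of y ^ n := by
        rw [_root_.map_pow]
        simp
      rw [this, toWord_of_pow, occ, List.countP_replicate]
      simp
  refine le_antisymm (Nat.sInf_le h3) (le_csInf ⟨n, h3⟩ ?_)
  rintro m ⟨hm, φ, hc, rfl⟩
  exact occ_power φ x y n hc hm

/-- For the literal definition of `μ` the value for a proper power of a generator is two. -/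
theorem mu_power (x y : Fin k) (hk : 2 ≤ k) (n : ℕ) (hn : 2 ≤ n) :
    mu y (FreeGroup.of x ^ n) = 2 := by
  obtain ⟨z, hz⟩ : ∃ z : Fin k, z ≠ y := by
    have : Nontrivial (Fin k) := Fin.nontrivial_iff_two_le.mpr hk
    exact exists_ne y
  have h3 : 2 ∈ {m | 0 < m ∧ ∃ φ : FreeGroup (Fin k) ≃* FreeGroup (Fin k),
        occ y (φ (FreeGroup.of x ^ n)).toWord = m} := by
    refine ⟨by norm_num, (FreeGroup.freeGroupCongr (Equiv.swap x z)).trans
      (MulAut.conj (FreeGroup.of y)), ?_⟩
    have h1 : ((FreeGroup.freeGroupCongr (Equiv.swap x z)).trans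
      (MulAut.conj (FreeGroup.of y))) (FreeGroup.of x ^ n) =
        FreeGroup.of y * FreeGroup.of z ^ n * (FreeGroup.of y)⁻¹ := by
      rw [MulEquiv.trans_apply, _root_.map_pow]
      simp
    have h2 : FreeGroup.of y * FreeGroup.of z ^ n * (FreeGroup.of y)⁻¹ =
        FreeGroup.mk ((y, true) :: (List.replicate n (z, true) ++ [(y, false)])) := by
      rw [mk_cons', ← FreeGroup.mul_mk, mk_replicate, mul_assoc]
      rfl
    have h4 : IsReduced ((y, true) :: (List.replicate n (z, true) ++ [(y, false)])) := by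
      obtain ⟨N, rfl⟩ : ∃ N, n = N + 1 := ⟨n - 1, by omega⟩
      have hr : IsReduced (List.replicate (N + 1) (z, true)) := by
        apply chain_pos
        intro a ha
        rw [(List.mem_replicate.mp ha).2]
      unfold FreeGroup.IsReduced at hr ⊢
      rw [List.isChain_cons, List.isChain_append]
      refine ⟨?_, hr, List.isChain_singleton _, ?_⟩
      · intro b hb h
        rw [List.replicate_succ, List.cons_append, List.head?_cons] at hb
        have hb' : b = (z, true) := by simpa using hb.symm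
        rw [hb'] at h
        exact absurd h.symm hz
      · intro a ha b hb h
        have ha' : a = (z, true) := (List.mem_replicate.mp (List.mem_of_mem_getLast? ha)).2
        have hb' : b = (y, false) := by simpa using hb.symm
        rw [ha', hb'] at h
        exact absurd h hz
    rw [h1, h2, toWord_mk, h4.reduce_eq]
    unfold occ
    rw [List.countP_cons_of_pos (by simp), List.countP_append, List.countP_replicate]
    simp [hz]
  refine le_antisymm (Nat.sInf_le h3) (le_csInf ⟨2, h3⟩ ?_)
  rintro m ⟨hm, φ, rfl⟩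
  by_contra hlt
  have hm1 : occ y (φ (FreeGroup.of x ^ n)).toWord = 1 := by omega
  have h4 := ez_le_occ y (φ (FreeGroup.of x ^ n)).toWord
  obtain ⟨L1, L2, e, hL, g1, g2⟩ := split_occ y 0 _ hm1
  have h5 : ez y (φ (FreeGroup.of x ^ n)) = ez y (sg y e) := by
    have : φ (FreeGroup.of x ^ n) = FreeGroup.mk (φ (FreeGroup.of x ^ n)).toWord := mk_toWord.symm
    rw [this, hL, mk_split, ez_mul, ez_mul]
    have e1 := ez_le_occ y L1
    have e2 := ez_le_occ y L2
    rw [g1] at e1
    rw [g2] at e2
    have e1' : ez y (FreeGroup.mk L1) = 0 := abs_nonpos_iff.mp (by simpa using e1)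
    have e2' : ez y (FreeGroup.mk L2) = 0 := abs_nonpos_iff.mp (by simpa using e2)
    rw [e1', e2']
    ring
  rw [_root_.map_pow, ez_pow] at h5
  have h6 : ez y (sg y e) = 1 ∨ ez y (sg y e) = -1 := by
    cases e
    · right
      simp [sg, ez_inv, ez_of]
    · left
      simp [sg, ez_of]
  have h7 : (n : ℤ) ∣ 1 := by
    rcases h6 with h6 | h6
    · exact ⟨_, by rw [h5, h6]⟩
    · refine ⟨- ez y (φ (FreeGroup.of x)), ?_⟩
      rw [mul_neg, h5, h6]
      norm_num
  have h8 := Int.natAbs_dvd_natAbs.mpr h7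
  simp at h8
  omega

theorem cyclicWords_power (x : Fin k) (n N : ℕ) (hn : 0 < n) :
    (CyclicWords (FreeGroup.of x ^ n) N).ncard ≤ (2 * k) ^ (N / n) := by
  classical
  set f : (Fin (N / n) → Fin k × Bool) → ConjClasses (FreeGroup (Fin k)) :=
    fun v => ConjClasses.mk (FreeGroup.mk (List.ofFn v) ^ n) with hf
  have hsub : CyclicWords (FreeGroup.of x ^ n) N ⊆ f '' Set.univ := by
    rintro C ⟨⟨φ, h1⟩, L, hL, hN, h2⟩
    have h3 : IsConj (FreeGroup.mk L) (φ (FreeGroup.of x) ^ n) := by
      rw [← _root_.map_pow, ← ConjClasses.mk_eq_mk_iff_isConj, ← h1, h2]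
    obtain ⟨M, hM⟩ := rot_pow _ n L hL h3
    have hlen : N = n * M.length := by
      rw [← hN, hM.perm.length_eq, List.length_flatten]
      simp
    have hM2 : M.length = N / n := by
      rw [hlen, Nat.mul_div_cancel_left _ hn]
    have h4 : C = ConjClasses.mk (FreeGroup.mk M ^ n) := by
      rw [h2, ← mk_flatten_replicate, ConjClasses.mk_eq_mk_iff_isConj]
      obtain ⟨r, hr⟩ := hM
      rw [← hr]
      have h5 : L.rotate r = L.drop (r % L.length) ++ L.take (r % L.length) :=
        List.rotate_eq_drop_append_take_mod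
      rw [h5, ← FreeGroup.mul_mk, isConj_iff]
      refine ⟨(FreeGroup.mk (L.take (r % L.length)))⁻¹, ?_⟩
      have h6 : (FreeGroup.mk L : FreeGroup (Fin k)) = FreeGroup.mk (L.take (r % L.length)) *
          FreeGroup.mk (L.drop (r % L.length)) := by
        rw [FreeGroup.mul_mk, List.take_append_drop]
      rw [h6]
      group
    rw [h4]
    refine ⟨fun i => M.get (i.cast hM2.symm), trivial, ?_⟩
    have h7 : List.ofFn (fun i : Fin (N / n) => M.get (i.cast hM2.symm)) = M := by
      rw [← List.ofFn_congr hM2, List.ofFn_get]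
    show ConjClasses.mk (FreeGroup.mk (List.ofFn (fun i : Fin (N / n) =>
      M.get (i.cast hM2.symm))) ^ n) = _
    rw [h7]
  calc (CyclicWords (FreeGroup.of x ^ n) N).ncard ≤ (f '' Set.univ).ncard :=
        Set.ncard_le_ncard hsub (Set.toFinite _)
    _ ≤ (Set.univ : Set (Fin (N / n) → Fin k × Bool)).ncard :=
        Set.ncard_image_le (Set.toFinite _)
    _ = (2 * k) ^ (N / n) := by
      rw [Set.ncard_univ, Nat.card_eq_fintype_card]
      simp [mul_comm]

theorem growth_power (x : Fin k) (n : ℕ) (hn : 0 < n) :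
    growth (FreeGroup.of x ^ n) ≤ (2 * (k : ℝ)) ^ ((1 : ℝ) / n) := by
  have hk : (1 : ℝ) ≤ 2 * (k : ℝ) := by
    have : (1 : ℝ) ≤ k := by exact_mod_cast (Nat.one_le_iff_ne_zero.mpr (by
      rintro rfl
      exact x.elim0))
    linarith
  refine limsup_le_of_le ?_ ?_
  · exact isCoboundedUnder_le_of_le atTop (x := 0) fun N => by positivity
  · rw [eventually_atTop]
    refine ⟨1, fun N hN => ?_⟩
    have h1 : ((CyclicWords (FreeGroup.of x ^ n) N).ncard : ℝ) ≤ (2 * (k : ℝ)) ^ (N / n) := by
      exact_mod_cast cyclicWords_power x n N hn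
    have hN0 : (0 : ℝ) < N := by exact_mod_cast hN
    have hn0 : (0 : ℝ) < n := by exact_mod_cast hn
    calc ((CyclicWords (FreeGroup.of x ^ n) N).ncard : ℝ) ^ ((1 : ℝ) / N)
        ≤ ((2 * (k : ℝ)) ^ (N / n)) ^ ((1 : ℝ) / N) :=
          Real.rpow_le_rpow (by positivity) h1 (by positivity)
      _ = (2 * (k : ℝ)) ^ (((N / n : ℕ) : ℝ) * ((1 : ℝ) / N)) := by
          rw [Real.rpow_mul (by positivity), Real.rpow_natCast]
      _ ≤ (2 * (k : ℝ)) ^ ((1 : ℝ) / n) := by
          apply Real.rpow_le_rpow_of_exponent_le hk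
          have h2 : ((N / n : ℕ) : ℝ) ≤ (N : ℝ) / n := Nat.cast_div_le
          calc ((N / n : ℕ) : ℝ) * ((1 : ℝ) / N) ≤ (N : ℝ) / n * ((1 : ℝ) / N) :=
                mul_le_mul_of_nonneg_right h2 (by positivity)
            _ = 1 / n := by
                field_simp

end Pool.Agent.Y860.OG
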