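import Mathlib
import Pool.Agent.Y860.OG.Pow

set_option autoImplicit false

/-!
# The final statements
-/

namespace Pool.Agent.Y860.OG

open FreeGroup Filter Topology Pool.Agent.H67R4.OG

variable {k : ℕ}

theorem growth_pw (hk : 3 ≤ k) (n : Fin k → ℕ) (hn : ∀ i, 0 < n i) :
    Real.sqrt (2 * k - 3) ≤ growth (pw n) := by
  obtain ⟨m, rfl⟩ : ∃ m, k = m + 3 := ⟨k - 3, by omega⟩
  have := growth_lowerP n hn
  have e : 2 * ((m + 3 : ℕ) : ℝ) - 3 = 2 * m + 3 := by push_cast; ring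
  rw [e]
  exact this

theorem mu_pw_le (n : Fin k → ℕ) (x : Fin k) (h : 0 < n x) : mu x (pw n) ≤ n x :=
  Nat.sInf_le ⟨h, MulEquiv.refl _, occ_pw n x⟩

theorem muCyc_pw_le (n : Fin k → ℕ) (x : Fin k) (h : 0 < n x) : muCyc x (pw n) ≤ n x :=
  Nat.sInf_le ⟨h, MulEquiv.refl _, pw_cyc n, occ_pw n x⟩

theorem exact_form (p a : ℕ) (n : Fin k → ℕ)
    (h : ∀ i, p ^ (a + 1) ∣ n i ∧ ¬ p ^ (a + 2) ∣ n i) :
    ∃ m : Fin k → ℕ, (∀ i, ¬ p ∣ m i) ∧ n = fun i => p ^ (a + 1) * m i := by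
  choose m hm using fun i => (h i).1
  refine ⟨m, fun i hi => (h i).2 ?_, funext hm⟩
  rw [hm i, pow_succ p (a + 1)]
  exact mul_dvd_mul_left _ hi

theorem le_mu_pw {p : ℕ} (hp : p.Prime) (a : ℕ) (n : Fin k → ℕ) (x : Fin k) (h0 : 0 < n x)
    (h : ∀ i, p ^ a ∣ n i ∧ ¬ p ^ (a + 1) ∣ n i) : p ^ a ≤ mu x (pw n) := by
  have h3 : n x ∈ {m | 0 < m ∧ ∃ φ : FreeGroup (Fin k) ≃* FreeGroup (Fin k),
      occ x (φ (pw n)).toWord = m} := ⟨h0, MulEquiv.refl _, occ_pw n x⟩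
  refine le_csInf ⟨_, h3⟩ ?_
  rintro N ⟨hN, φ, rfl⟩
  rcases a with _ | a
  · rw [pow_zero]
    exact hN
  · obtain ⟨m, hm, rfl⟩ := exact_form p a n h
    exact occ_ge hp a m hm φ x _ mk_toWord hN

theorem le_muCyc_pw {p : ℕ} (hp : p.Prime) (a : ℕ) (n : Fin k → ℕ) (x : Fin k) (h0 : 0 < n x)
    (h : ∀ i, p ^ a ∣ n i ∧ ¬ p ^ (a + 1) ∣ n i) : p ^ a ≤ muCyc x (pw n) := by
  have h3 : n x ∈ {m | 0 < m ∧ ∃ φ : FreeGroup (Fin k) ≃* FreeGroup (Fin k),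
      IsCyclicallyReduced (φ (pw n)).toWord ∧ occ x (φ (pw n)).toWord = m} :=
    ⟨h0, MulEquiv.refl _, pw_cyc n, occ_pw n x⟩
  refine le_csInf ⟨_, h3⟩ ?_
  rintro N ⟨hN, φ, -, rfl⟩
  rcases a with _ | a
  · rw [pow_zero]
    exact hN
  · obtain ⟨m, hm, rfl⟩ := exact_form p a n h
    exact occ_ge hp a m hm φ x _ mk_toWord hN

/-- Every number `n ≥ 3` is exactly divisible by a prime power which is at least three. -/
theorem exists_exact (n : ℕ) (hn : 3 ≤ n) :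
    ∃ p a : ℕ, p.Prime ∧ 3 ≤ p ^ a ∧ p ^ a ∣ n ∧ ¬ p ^ (a + 1) ∣ n := by
  have hn0 : n ≠ 0 := by omega
  by_cases h : ∃ p, p.Prime ∧ p ≠ 2 ∧ p ∣ n
  · obtain ⟨p, hp, h2, hpn⟩ := h
    have ha : 1 ≤ n.factorization p := (hp.dvd_iff_one_le_factorization hn0).mp hpn
    refine ⟨p, n.factorization p, hp, ?_, Nat.ordProj_dvd n p,
      Nat.pow_succ_factorization_not_dvd hn0 hp⟩
    have : 3 ≤ p := by
      have := hp.two_le
      omega
    calc 3 ≤ p := this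
      _ = p ^ 1 := (pow_one p).symm
      _ ≤ _ := Nat.pow_le_pow_right hp.pos ha
  · push Not at h
    have h2 : n = 2 ^ (n.primeFactorsList.length) := by
      apply Nat.eq_prime_pow_of_unique_prime_dvd hn0
      intro d hd hdn
      by_contra hne
      exact h d hd hne hdn
    refine ⟨2, n.primeFactorsList.length, Nat.prime_two, ?_, ?_, ?_⟩
    · rw [← h2]
      exact hn
    · rw [← h2]
    · intro hd
      rw [pow_succ] at hd
      have := Nat.le_of_dvd (by omega) hd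
      rw [← h2] at this
      omega

theorem pw_ne_one (n : Fin k → ℕ) (x : Fin k) (h : 0 < n x) : pw n ≠ 1 := by
  intro h1
  have := occ_pw n x
  rw [h1, toWord_one] at this
  simp [occ] at this
  omega

theorem conj_fails (hk : 3 ≤ k) (μ : ℕ) (hμ : 3 ≤ μ) (g : ℝ) (hg : Real.sqrt (2 * k - 3) ≤ g) :
    (2 * (k : ℝ) - 3) ^ ((1 : ℝ) / (μ : ℝ)) < g := by
  refine lt_of_lt_of_le ?_ hg
  rw [Real.sqrt_eq_rpow]
  have h1 : (3 : ℝ) ≤ k := by exact_mod_cast hk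
  have h2 : (3 : ℝ) ≤ μ := by exact_mod_cast hμ
  apply Real.rpow_lt_rpow_of_exponent_lt
  · linarith
  · rw [div_lt_div_iff₀ (by linarith) (by norm_num)]
    linarith

theorem small_growth (hk : 3 ≤ k) (n : ℕ) (hn : 4 ≤ n) :
    (2 * (k : ℝ)) ^ ((1 : ℝ) / n) < Real.sqrt (2 * k - 3) := by
  have h1 : (3 : ℝ) ≤ k := by exact_mod_cast hk
  have h2 : (4 : ℝ) ≤ n := by exact_mod_cast hn
  calc (2 * (k : ℝ)) ^ ((1 : ℝ) / n) ≤ (2 * (k : ℝ)) ^ ((1 : ℝ) / 4) := by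
        apply Real.rpow_le_rpow_of_exponent_le (by linarith)
        exact one_div_le_one_div_of_le (by norm_num) h2
    _ < ((2 * (k : ℝ) - 3) ^ 2) ^ ((1 : ℝ) / 4) := by
        apply Real.rpow_lt_rpow (by positivity) (by nlinarith) (by norm_num)
    _ = Real.sqrt (2 * k - 3) := by
        rw [← Real.rpow_natCast, ← Real.rpow_mul (by linarith), Real.sqrt_eq_rpow]
        norm_num

theorem main (hk : 3 ≤ k) :
    (∀ n : Fin k → ℕ, (∀ i, 0 < n i) → pw n ≠ 1 ∧ Real.sqrt (2 * k - 3) ≤ growth (pw n)) ∧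
    (∀ (p a : ℕ) (n : Fin k → ℕ), p.Prime → (∀ i, 0 < n i) →
      (∀ i, p ^ a ∣ n i ∧ ¬ p ^ (a + 1) ∣ n i) → ∀ x,
        (p ^ a ≤ mu x (pw n) ∧ mu x (pw n) ≤ n x) ∧
        (p ^ a ≤ muCyc x (pw n) ∧ muCyc x (pw n) ≤ n x)) ∧
    (∀ n : ℕ, 3 ≤ n → ∀ x : Fin k,
      (2 * (k : ℝ) - 3) ^ ((1 : ℝ) / (mu x (pw fun _ : Fin k => n) : ℝ)) <
        growth (pw fun _ : Fin k => n) ∧
      (2 * (k : ℝ) - 3) ^ ((1 : ℝ) / (muCyc x (pw fun _ : Fin k => n) : ℝ)) <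
        growth (pw fun _ : Fin k => n)) ∧
    (∀ q : ℕ, IsPrimePow q → ∀ x y : Fin k, mu x (pw fun _ : Fin k => q) = q ∧
      muCyc x (pw fun _ : Fin k => q) = q ∧ muCyc x (FreeGroup.of y ^ q) = q) ∧
    (∀ n : ℕ, 4 ≤ n → ∀ x y : Fin k, mu x (FreeGroup.of y ^ n) = 2 ∧
      muCyc x (FreeGroup.of y ^ n) = n ∧
      growth (FreeGroup.of y ^ n) ≤ (2 * (k : ℝ)) ^ ((1 : ℝ) / n) ∧
      (2 * (k : ℝ)) ^ ((1 : ℝ) / n) < Real.sqrt (2 * k - 3)) ∧
    (∀ f : ℕ → ℝ, ∃ w : FreeGroup (Fin k), w ≠ 1 ∧ ∀ x, growth w ≠ f (muCyc x w)) := by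
  have h3 : ∀ q : ℕ, IsPrimePow q → ∀ x y : Fin k, mu x (pw fun _ : Fin k => q) = q ∧
      muCyc x (pw fun _ : Fin k => q) = q ∧ muCyc x (FreeGroup.of y ^ q) = q := by
    intro q hq x y
    rw [isPrimePow_nat_iff] at hq
    obtain ⟨p, a, hp, ha, rfl⟩ := hq
    have h0 : 0 < p ^ a := pow_pos hp.pos _
    have hx : ∀ i : Fin k, p ^ a ∣ p ^ a ∧ ¬ p ^ (a + 1) ∣ p ^ a := by
      intro i
      refine ⟨dvd_rfl, fun h => ?_⟩
      have := (Nat.pow_dvd_pow_iff_le_right hp.one_lt).mp h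
      omega
    exact ⟨le_antisymm (mu_pw_le _ x h0) (le_mu_pw hp a _ x h0 hx),
      le_antisymm (muCyc_pw_le _ x h0) (le_muCyc_pw hp a _ x h0 hx), muCyc_power y x _ h0⟩
  refine ⟨fun n hn => ⟨pw_ne_one n ⟨0, by omega⟩ (hn _), growth_pw hk n hn⟩,
    fun p a n hp hn h x => ⟨⟨le_mu_pw hp a n x (hn x) h, mu_pw_le n x (hn x)⟩,
      le_muCyc_pw hp a n x (hn x) h, muCyc_pw_le n x (hn x)⟩, ?_, h3, ?_, ?_⟩
  · intro n hn x
    obtain ⟨p, a, hp, h1, h2, h4⟩ := exists_exact n hn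
    have hg := growth_pw hk (fun _ : Fin k => n) (fun _ => by omega)
    exact ⟨conj_fails hk _ (h1.trans (le_mu_pw hp a _ x (by omega) fun _ => ⟨h2, h4⟩)) _ hg,
      conj_fails hk _ (h1.trans (le_muCyc_pw hp a _ x (by omega) fun _ => ⟨h2, h4⟩)) _ hg⟩
  · intro n hn x y
    exact ⟨mu_power y x (by omega) n (by omega), muCyc_power y x n (by omega),
      growth_power y n (by omega), small_growth hk n hn⟩
  · intro f
    have h4 : IsPrimePow 4 := by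
      rw [isPrimePow_nat_iff]
      exact ⟨2, 2, Nat.prime_two, by norm_num, by norm_num⟩
    set z : Fin k := ⟨0, by omega⟩ with hz
    by_cases h : growth (FreeGroup.of z ^ 4) = f 4
    · refine ⟨pw fun _ => 4, pw_ne_one _ z (by norm_num), fun x => ?_⟩
      rw [(h3 4 h4 x x).2.1, ← h]
      have h5 := growth_power z 4 (by norm_num)
      have h6 := small_growth hk 4 le_rfl
      have h7 := growth_pw hk (fun _ : Fin k => 4) (fun _ => by norm_num)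
      exact (lt_of_le_of_lt h5 (lt_of_lt_of_le h6 h7)).ne'
    · refine ⟨FreeGroup.of z ^ 4, ?_, fun x => ?_⟩
      · intro h1
        have h8 := toWord_of_pow z 4
        rw [h1, toWord_one] at h8
        simp at h8
      · rw [muCyc_power z x 4 (by norm_num)]
        exact h

end Pool.Agent.Y860.OG
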